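import Pool.Agent.helper34.MO.SpecB

/-! Project MO (MP_0631c5_co): row S5a -/

set_option autoImplicit false
set_option linter.unusedVariables false

open Complex Finset

namespace Pool.Agent.MO

theorem S5a_im (f x : ℝ) (z : ℂ) (hz : z = (‖z‖ : ℂ) * exp (x * I)) (h0 : 0 ≤ f + x)
    (h1 : f + x ≤ Real.pi) : 0 ≤ (exp (f * I) * z).im := by
  have h2 : exp (f * I) * z = (‖z‖ : ℂ) * exp (((f + x : ℝ) : ℂ) * I) := by
    rw [show (((f + x : ℝ) : ℂ) * I) = f * I + x * I by push_cast; ring, Complex.exp_add]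
    calc exp (f * I) * z = exp (f * I) * ((‖z‖ : ℂ) * exp (x * I)) := by rw [← hz]
      _ = _ := by ring
  rw [h2, Complex.im_ofReal_mul, Complex.exp_ofReal_mul_I_im]
  exact mul_nonneg (norm_nonneg _) (Real.sin_nonneg_of_nonneg_of_le_pi h0 h1)

theorem S5a_im_neg (f x : ℝ) (z : ℂ) (hz0 : z ≠ 0) (hz : z = (‖z‖ : ℂ) * exp (x * I))
    (h0 : f + x < 0) (h1 : -(Real.pi / 2) < f + x) : (exp (f * I) * z).im < 0 := by
  have h2 : exp (f * I) * z = (‖z‖ : ℂ) * exp (((f + x : ℝ) : ℂ) * I) := by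
    rw [show (((f + x : ℝ) : ℂ) * I) = f * I + x * I by push_cast; ring, Complex.exp_add]
    calc exp (f * I) * z = exp (f * I) * ((‖z‖ : ℂ) * exp (x * I)) := by rw [← hz]
      _ = _ := by ring
  rw [h2, Complex.im_ofReal_mul, Complex.exp_ofReal_mul_I_im]
  have h3 : Real.sin (f + x) < 0 :=
    Real.sin_neg_of_neg_of_neg_pi_lt h0 (by have := Real.pi_pos; linarith)
  exact mul_neg_of_pos_of_neg (norm_pos_iff.2 hz0) h3

theorem S5a_arg (z : ℂ) : z = (‖z‖ : ℂ) * exp (arg z * I) := (norm_mul_exp_arg_mul_I z).symm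

theorem S5a_ph2 (A B m z : ℂ) (hA : A ≠ 0) (hz : z = A * B - m ^ 2) :
    z = (‖z‖ : ℂ) * exp (ph2 A B m * I) := by
  have h1 : z = A * (B - m ^ 2 / A) := by rw [hz]; field_simp
  have h2 : exp (ph2 A B m * I) = exp (arg A * I) * exp (arg (B - m ^ 2 / A) * I) := by
    rw [← Complex.exp_add]
    congr 1
    simp only [ph2]
    push_cast
    ring
  rw [h2]
  calc z = A * (B - m ^ 2 / A) := h1
    _ = ((‖A‖ : ℂ) * exp (arg A * I)) *
        ((‖B - m ^ 2 / A‖ : ℂ) * exp (arg (B - m ^ 2 / A) * I)) := by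
      rw [← S5a_arg, ← S5a_arg]
    _ = ((‖z‖ : ℝ) : ℂ) * (exp (arg A * I) * exp (arg (B - m ^ 2 / A) * I)) := by
      rw [h1, norm_mul]
      push_cast
      ring

theorem S5a_php (hPHP : PHP_stmt) (F : ℕ → ℕ → ℂ) (S T : Finset ℕ) (k : ℕ) (hk : k ∉ S)
    (hT : insert k S = T) (h : AccS F T) :
    phS F S < phS F T + Real.pi / 2 ∧ phS F T < phS F S + Real.pi / 2 := by
  obtain ⟨_, hre, hph⟩ := hPHP F S k hk (by rw [hT]; exact h)
  rw [hT] at hre hph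
  have h1 := abs_lt.1 (Complex.abs_arg_lt_pi_div_two_iff.2 (Or.inl hre))
  rw [hph]
  constructor <;> linarith [h1.1, h1.2]

theorem S5a (hPHD : PHD_stmt) (hPHP : PHP_stmt) (hPHS : PHS_stmt) (hPHE : PHE_stmt) (hEV : EV_stmt) (hACG : ACG_stmt) (hA2P : A2P_stmt) (hEX2 : EX2_stmt) (hG2D : G2D_stmt) (hG2M : G2M_stmt) (hS1 : S1_stmt) (hS3 : S3_stmt) (hS4 : S4_stmt) (hXAB : XAB_stmt) (hDID : DID_stmt) : S5a_stmt := by
  intro f A B m C hacc hg hgI hC hC1 h3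
  have hpi := Real.pi_pos
  obtain ⟨_, _, hE3, _, hE5⟩ := hPHE
  have hP0 : Psd2 0 0 0 := by simp [Psd2]
  -- accretivity of the whole structure
  have hAcc : AccS (G5 A B C 1 1 m (-I) (-I) (-I) (-I) (-I) (-I)) {0, 1, 2, 3, 4} := by
    have h := hACG A B m 0 0 0 C 1 1 (-I) (-I) (-I) (-I) (-I) (-I) hacc hP0 hC one_pos one_pos
      (by simp) (by simp) (by simp) (by simp) (by simp) (by simp)
    simpa using h
  have hAccI : Acc2 A B (m + I) := by
    have h1 : (m + I).re = m.re := by simp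
    obtain ⟨a, b, c⟩ := hacc
    exact ⟨a, b, by rw [h1]; exact c⟩
  set G := G5 A B C 1 1 m (-I) (-I) (-I) (-I) (-I) (-I) with hG
  have hsub (S : Finset ℕ) (hS : S ⊆ {0, 1, 2, 3, 4}) : AccS G S := hE5 G S _ hS hAcc
  by_contra hneg
  push Not at hneg
  -- the four element substructures
  have p4 := S5a_php hPHP G {0, 1, 2, 3} {0, 1, 2, 3, 4} 4 (by decide) (by decide) hAcc
  have p3 := S5a_php hPHP G {0, 1, 2, 4} {0, 1, 2, 3, 4} 3 (by decide) (by decide) hAcc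
  have p2 := S5a_php hPHP G {0, 1, 3, 4} {0, 1, 2, 3, 4} 2 (by decide) (by decide) hAcc
  have p1 := S5a_php hPHP G {0, 2, 3, 4} {0, 1, 2, 3, 4} 1 (by decide) (by decide) hAcc
  have p0 := S5a_php hPHP G {1, 2, 3, 4} {0, 1, 2, 3, 4} 0 (by decide) (by decide) hAcc
  have q3 := S5a_php hPHP G {0, 1, 4} {0, 1, 3, 4} 3 (by decide) (by decide)
    (hsub _ (by decide))
  have q4 := S5a_php hPHP G {0, 1, 3} {0, 1, 3, 4} 4 (by decide) (by decide)
    (hsub _ (by decide))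
  -- S3
  obtain ⟨s3a, s3b, s3c⟩ := hS3 f A B m C 1 hacc hC one_pos
  obtain ⟨s3d, s3e⟩ := s3c hgI h3
  have e4 : phS (G5 A B C ((1 : ℝ) : ℂ) 1 m (-I) (-I) (-I) (-I) 0 0) {0, 1, 2, 3} =
      phS G {0, 1, 2, 3} := by
    refine (hE3 _ _ _ ?_).1
    intro i hi j hj
    rw [hG]
    fin_cases hi <;> fin_cases hj <;> simp [G5]
  have e3 : phS (G5 A B C 1 ((1 : ℝ) : ℂ) m (-I) (-I) 0 0 (-I) (-I)) {0, 1, 2, 4} =
      phS G {0, 1, 2, 4} := by
    refine (hE3 _ _ _ ?_).1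
    intro i hi j hj
    rw [hG]
    fin_cases hi <;> fin_cases hj <;> simp [G5]
  rw [e4] at s3a s3d
  rw [e3] at s3b s3e
  -- S1
  obtain ⟨s1a, s1b⟩ := hS1 f A B m 1 hacc hg one_pos
  have hAcc1 : AccS (G5 A B ((1 : ℝ) : ℂ) 1 1 m 0 (-I) 0 0 0 0) {0, 1, 2} := by
    have h := hACG A B m 0 0 0 1 1 1 0 (-I) 0 0 0 0 hacc hP0 one_pos one_pos one_pos
      (by simp) (by simp) (by simp) (by simp) (by simp) (by simp)
    have h2 := hE5 _ {0, 1, 2} _ (by decide) h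
    simpa using h2
  have hAcc2 : AccS (G5 A B ((1 : ℝ) : ℂ) 1 1 m (-I) 0 0 0 0 0) {0, 1, 2} := by
    have h := hACG A B m 0 0 0 1 1 1 (-I) 0 0 0 0 0 hacc hP0 one_pos one_pos one_pos
      (by simp) (by simp) (by simp) (by simp) (by simp) (by simp)
    have h2 := hE5 _ {0, 1, 2} _ (by decide) h
    simpa using h2
  have e014 : phS (G5 A B ((1 : ℝ) : ℂ) 1 1 m 0 (-I) 0 0 0 0) {0, 1, 2} = phS G {0, 1, 4} := by
    rw [hEV.2 _ 0 1 2 (by decide) (by decide) (by decide) (by simp [G5]) (by simp [G5])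
      (by simp [G5]) hAcc1, hEV.2 G 0 1 4 (by decide) (by decide) (by decide)
      (by simp [hG, G5]) (by simp [hG, G5]) (by simp [hG, G5]) (hsub _ (by decide))]
    simp [hG, G5]
  have e013 : phS (G5 A B ((1 : ℝ) : ℂ) 1 1 m (-I) 0 0 0 0 0) {0, 1, 2} = phS G {0, 1, 3} := by
    rw [hEV.2 _ 0 1 2 (by decide) (by decide) (by decide) (by simp [G5]) (by simp [G5])
      (by simp [G5]) hAcc2, hEV.2 G 0 1 3 (by decide) (by decide) (by decide)
      (by simp [hG, G5]) (by simp [hG, G5]) (by simp [hG, G5]) (hsub _ (by decide))]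
    simp [hG, G5]
  rw [e014] at s1a
  rw [e013] at s1b
  -- XAB
  obtain ⟨x1, x2⟩ := hXAB
  obtain ⟨x2a, x2b⟩ := x2 A B m C hacc hC hC1
  rw [← hG] at x2a x2b
  have xB := abs_le.1 (x1 B C hacc.2.1 hC hC1)
  have xA := abs_le.1 (x1 A C hacc.1 hC hC1)
  -- modifications
  have hCre : (0 : ℝ) ≤ ((C : ℂ) + 2 * I).re := by simp [hC.le]
  have hCim : (0 : ℝ) ≤ ((C : ℂ) + 2 * I).im := by simp
  obtain ⟨mA, mA2⟩ := hG2M f A B (m + I) (C + 2 * I) 0 hAccI hgI hCre hCim (by simp) (by simp)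
  obtain ⟨mB, mB2⟩ := hG2M f A B (m + I) 0 (C + 2 * I) hAccI hgI (by simp) (by simp) hCre hCim
  have t1 : 0 ≤ f + ph2 (A + C + 2 * I) B (m + I) := by
    have h := mA2 0 0 le_rfl le_rfl
    simpa [add_assoc] using h
  have t2 : 0 ≤ f + ph2 A (B + C + 2 * I) (m + I) := by
    have h := mB2 0 0 le_rfl le_rfl
    simpa [add_assoc] using h
  have hmu : (((C : ℂ) + 4 * I) / (4 - C)) = ((C / (4 - C) : ℝ) : ℂ) + ((4 / (4 - C) : ℝ) : ℂ) * I := by
    push_cast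
    ring
  have h4C : (0 : ℝ) < 4 - C := by linarith
  have hmre : 0 ≤ (((C : ℂ) + 4 * I) / (4 - C)).re := by
    rw [hmu]
    simp only [add_re, ofReal_re, mul_re, I_re, mul_zero, ofReal_im, I_im, mul_one, sub_self,
      add_zero]
    positivity
  have hmim : 0 ≤ (((C : ℂ) + 4 * I) / (4 - C)).im := by
    rw [hmu]
    simp only [add_im, ofReal_im, mul_im, ofReal_re, I_im, mul_one, I_re, mul_zero, zero_add,
      add_zero]
    positivity
  obtain ⟨gA, gB, _⟩ := hG2D.1 f A B m hacc hg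
  have t3 : 0 ≤ f + arg (B + (C + 4 * I) / (4 - C)) := by
    have h := (hG2D.2 f B hacc.2.1 gB).2 _ hmre hmim 0 le_rfl
    simpa using h
  have t4 : 0 ≤ f + arg (A + (C + 4 * I) / (4 - C)) := by
    have h := (hG2D.2 f A hacc.1 gA).2 _ hmre hmim 0 le_rfl
    simpa using h
  -- the seven terms
  have hA0 : A + C + 2 * I ≠ 0 := by
    intro h
    have h1 := congrArg Complex.re h
    simp at h1
    linarith [hacc.1]
  have hA00 : A ≠ 0 := by
    intro h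
    have h1 := hacc.1
    rw [h] at h1
    simp at h1
  have i1 : 0 ≤ (exp (f * I) * ((A + C + 2 * I) * B - (m + I) ^ 2)).im :=
    S5a_im f _ _ (S5a_ph2 _ _ _ _ hA0 rfl) t1 (by linarith)
  have i2 : 0 ≤ (exp (f * I) * (A * (B + C + 2 * I) - (m + I) ^ 2)).im :=
    S5a_im f _ _ (S5a_ph2 _ _ _ _ hA00 rfl) t2 (by linarith)
  have i3 : 0 ≤ (exp (f * I) * detS G {0, 1, 4}).im :=
    S5a_im f _ _ (hPHD G _ (hsub _ (by decide))).2.1 s1a (by linarith)
  have i4 : 0 ≤ (exp (f * I) * detS G {0, 1, 3}).im :=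
    S5a_im f _ _ (hPHD G _ (hsub _ (by decide))).2.1 s1b (by linarith)
  have i5 : 0 ≤ (exp (f * I) * (B + (C + 4 * I) / (4 - C))).im :=
    S5a_im f _ _ (S5a_arg _) t3 (by linarith)
  have i6 : 0 ≤ (exp (f * I) * (A + (C + 4 * I) / (4 - C))).im :=
    S5a_im f _ _ (S5a_arg _) t4 (by linarith)
  obtain ⟨d1, d2, _⟩ := hPHD G _ hAcc
  have i7 := S5a_im_neg f _ _ d1 d2 hneg (by linarith)
  have hd := hDID A B m C hC hC1
  rw [← hG] at hd
  have h8 : exp (f * I) * detS G {0, 1, 2, 3, 4} =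
      exp (f * I) * ((A + C + 2 * I) * B - (m + I) ^ 2) +
      exp (f * I) * (A * (B + C + 2 * I) - (m + I) ^ 2) +
      ((C / 2 : ℝ) : ℂ) * (exp (f * I) * detS G {0, 1, 4}) +
      ((C / 2 : ℝ) : ℂ) * (exp (f * I) * detS G {0, 1, 3}) +
      ((2 - C / 2 : ℝ) : ℂ) * (exp (f * I) * (B + (C + 4 * I) / (4 - C))) +
      ((2 - C / 2 : ℝ) : ℂ) * (exp (f * I) * (A + (C + 4 * I) / (4 - C))) := by
    rw [hd]
    push_cast
    ring
  rw [h8] at i7
  simp only [add_im, Complex.im_ofReal_mul] at i7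
  have j3 := mul_nonneg (by linarith : (0 : ℝ) ≤ C / 2) i3
  have j4 := mul_nonneg (by linarith : (0 : ℝ) ≤ C / 2) i4
  have j5 := mul_nonneg (by linarith : (0 : ℝ) ≤ 2 - C / 2) i5
  have j6 := mul_nonneg (by linarith : (0 : ℝ) ≤ 2 - C / 2) i6
  linarith

end Pool.Agent.MO
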